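import Pool.Agent.TuringBaire.Final
import Pool.Agent.TuringBaire.Comp

/-!
Turing equivalence on Cantor space is isomorphic, by a bijection of Baire class 1, to the orbit
equivalence relation of a continuous action of a countable group on the Baire space.

`TuringEquivalent` is Mathlib's Turing equivalence of (partial) functions on the natural numbers;
it is applied to the characteristic functions of `x` and `y`.
-/

set_option autoImplicit false

namespace Pool.Agent.Results.MP_a48249_lc.BaireClassOneRealization

theorem result :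
    ∃ (Γ : Type) (_ : Group Γ) (_ : MulAction Γ (ℕ → ℕ)), Countable Γ ∧
      (∀ γ : Γ, Continuous fun u : ℕ → ℕ => γ • u) ∧
      ∃ Φ : (ℕ → Bool) → ℕ → ℕ, Function.Bijective Φ ∧
        (∀ V : Set (ℕ → ℕ), IsOpen V →
          ∃ F : ℕ → Set (ℕ → Bool), (∀ n, IsClosed (F n)) ∧ Φ ⁻¹' V = ⋃ n, F n) ∧
        ∀ x y : ℕ → Bool,
          TuringEquivalent (fun n => Part.some (if x n then 1 else 0))
              (fun n => Part.some (if y n then 1 else 0)) ↔
            ∃ γ : Γ, γ • Φ x = Φ y := by
  obtain ⟨C, hC⟩ := TuringBaire.exists_ctx_turing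
  obtain ⟨Γ, hΓ, hA, h1, h2, Φ, h3, h4, h5⟩ := TuringBaire.main C
  exact ⟨Γ, hΓ, hA, h1, h2, Φ, h3, h4, fun x y => (hC x y).symm.trans (h5 x y)⟩

end Pool.Agent.Results.MP_a48249_lc.BaireClassOneRealization
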